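import Pool.Agent.EH60.Rough3

/-!
# MP_188a10_nt: hybrid level of distribution

`(1)` an unconditional theorem: for `2 ≤ y ≤ N`, `(l, d) = 1` and all squarefree cofactors `e` prime to `d`
with all prime factors `> N^ε` and `d e ≤ N^{1-ε}`, the mean of `|π(y; d e, a) - li y / φ(d e)|` over the
classes `a` modulo `d e` above `l` modulo `d` equals `|π(y; d, l) - li y / φ(d)| / φ(e)`, up to an error whose sum
over all `e` is at most `N^{1-ε/6} / d`;
`(2)`, `(3)` hence `α` is admissible if and only if the hybrid sums over the moduli `d e` up to `N^{1-ε}`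
(respectively over the moduli `d p`, `p` in one block of primes) have the natural order, the sup being taken only
over `y` and over the classes modulo `d < N^α (log N)^{-C₁}`.
-/

noncomputable section

open Filter

namespace Pool.Agent.Results.MP_188a10_nt.HybridLevel

theorem result :
    (∀ ε : ℝ, 0 < ε → ∀ᶠ N : ℕ in atTop, ∀ (d : ℕ) (y : ℝ) (l : ℕ), 0 < d → 2 ≤ y → y ≤ N →
      l.Coprime d →
      ∑ e ∈ EH60.Rg N ε d,
        |EH60.mean y (d * e) d l - EH60.Delta y d l / (e.totient : ℝ)| ≤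
          (N : ℝ) ^ (1 - ε / 6) / d) ∧
    (∀ α ε : ℝ, 0 < α → 0 < ε → α + 2 * ε ≤ 1 →
      (EH60.Admissible α ↔ EH60.HybR α ε) ∧
      (EH60.Admissible α ↔ EH60.HybAll α ε) ∧
      (EH60.Admissible α ↔ EH60.HybSome α ε)) :=
  ⟨EH60.dev_rough, fun α ε hα hε h => ⟨EH60.hybR_iff α ε hα hε h,
    (EH60.hybrid_iff α ε hα hε h).1, (EH60.hybrid_iff α ε hα hε h).2⟩⟩

end Pool.Agent.Results.MP_188a10_nt.HybridLevel
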