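import Pool.Agent.EH60.WM5

/-!
# MP_188a10_nt: the weighted sums for different multiplicative weights

`(1)` an unconditional inequality: for multiplicative weights `0 ≤ g ≤ h ≤ 3` (at the primes) the sum
`S_g(N^α) = ∑_{d ≤ N^α} μ(d)² g(d) E(N, d)` is at most `C exp(-∑_{p ≤ N} (h(p) - g(p)) / p) S_h(N^{α+η})`, up to a
power saving, uniformly in `g` and `h`;
`(2)` Q1 holds if and only if for every `α < 1` the bound of Q1 holds with the natural extra saving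
`exp(-∑_{p ≤ N} (3 - g(p)) / p)` for all weights `0 ≤ g ≤ 3`;
`(3)` in particular Q1 implies `∑_{d ≤ N^α} μ(d)² k^{ν(d)} E(N, d) = O(N / (log N)^{6-k})` for `0 ≤ k ≤ 3`.
-/

noncomputable section

open Filter

namespace Pool.Agent.Results.MP_188a10_nt.SmallerWeights

theorem result :
    (∀ α η : ℝ, 0 < α → 0 < η → α + η ≤ 1 → ∃ C : ℝ, 0 < C ∧
      ∀ᶠ N : ℕ in atTop, ∀ g h : ℕ → ℝ, (∀ p, 0 ≤ g p) → (∀ p, g p ≤ h p) → (∀ p, h p ≤ 3) →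
        EH60.Sg N g ((N : ℝ) ^ α) ≤
          C * Real.exp (-∑ p ∈ EH60.PR 1 N, (h p - g p) / (p : ℝ)) *
            EH60.Sg N h ((N : ℝ) ^ (α + η)) + (N : ℝ) ^ ((1 + α) / 2)) ∧
    ((∀ α : ℝ, 1 / 2 < α → α < 1 → EH60.Admissible α) ↔
      ∀ α : ℝ, 0 < α → α < 1 → EH60.AllWeights α) ∧
    ((∀ α : ℝ, 1 / 2 < α → α < 1 → EH60.Admissible α) →
      ∀ α : ℝ, 0 < α → α < 1 → ∃ K : ℝ, ∀ᶠ N : ℕ in atTop, ∀ k : ℝ, 0 ≤ k → k ≤ 3 →
        ∑ d ∈ (Finset.Icc 1 N).filter (fun d : ℕ => (d : ℝ) ≤ (N : ℝ) ^ α),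
          ((ArithmeticFunction.moebius d : ℤ) : ℝ) ^ 2 * k ^ d.primeFactors.card * EH60.E N d ≤
          K * N / Real.log N ^ (6 - k)) :=
  ⟨EH60.weights, EH60.q1_iff_allWeights,
    fun h α h0 h1 => EH60.const_weights α (EH60.q1_iff_allWeights.1 h α h0 h1)⟩

end Pool.Agent.Results.MP_188a10_nt.SmallerWeights
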