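import Pool.Agent.EH60.Final

/-!
# MP_188a10_nt: the level of distribution on thin sets of moduli

`(1)` an unconditional inequality: the sum of `μ(d)² 3^{ν(d)} E(N, d)` over all `d ≤ N^α` is at most
`log N` times the normalised sum over the multiples `n` of any squarefree `m` in a single block `(Q/4, Q]`
far above `N^α`, in which `E(N, n)` is replaced by mean errors `H(N, N^α, n)`;
`(2)` hence Q1 is equivalent to a statement about one block and the multiples of one prime `q = q(N)`.
-/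

noncomputable section

open Filter

namespace Pool.Agent.Results.MP_188a10_nt.ThinModuli

theorem result :
    (∀ α η : ℝ, 0 < α → α < 1 → 0 < η → ∀ᶠ N : ℕ in atTop, ∀ (m : ℕ) (Q : ℝ), Squarefree m →
      m * (N : ℝ) ^ α * (N : ℝ) ^ η ≤ Q → Q ≤ N →
      ∑ d ∈ (Finset.Icc 1 N).filter (fun d : ℕ => (d : ℝ) ≤ (N : ℝ) ^ α), EH60.wt d * EH60.E N d ≤
        8 / (3 * η) * Real.log N / EH60.share m *
          ∑ n ∈ EH60.block N Q m, EH60.wt n * EH60.H N ((N : ℝ) ^ α) n +
        (N : ℝ) ^ ((1 + α) / 2)) ∧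
    ((∀ α : ℝ, 1 / 2 < α → α < 1 → EH60.Admissible α) ↔
      ∀ α a b : ℝ, 1 / 2 < α → 0 < a → a < b → b < 1 - α → EH60.Thin α a b) :=
  ⟨EH60.transfer, EH60.main_iff⟩

end Pool.Agent.Results.MP_188a10_nt.ThinModuli
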