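import Pool.Agent.EH60.Trim5

/-!
# MP_188a10_nt: the maximum over all but a few classes

`(1)` an unconditional theorem: for every `d` and every `e` in `Rg N ε d` (squarefree, prime to `d`, all prime
factors `> N^ε`, `d e ≤ N^{1-ε}`) there are exceptional sets of at most `KK N η d e = N^η (d e / P⁻(e) + (d e)² / N)`
residue classes modulo `d e` such that outside them `π(y; d e, a)` equals `π(y; d, a) / φ(e)` for all `y ≤ N` up to
an error `x(e)`, with `∑_e x(e) ≤ N^{1-η/9} / d`;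
`(2)` hence the sums of the trimmed errors `Et` for the moduli `d e` are controlled by `E(N, d)`;
`(3)` if `β` is admissible (for instance `β = 1/2`, Bombieri), then the bound of Q1 holds for the moduli `d e` up to
`N^{1-ε}`, `d < N^β (log N)^{-C₁}`, when for each of them at most `KK N η d e` classes are discarded.
-/

noncomputable section

open Filter

namespace Pool.Agent.Results.MP_188a10_nt.TrimmedMaximum

theorem result :
    (∀ ε η : ℝ, 0 < ε → 0 < η → η ≤ ε → ∀ᶠ N : ℕ in atTop, ∀ d : ℕ, 0 < d →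
      ∃ (A : ℕ → Finset ℕ) (x : ℕ → ℝ),
        (∀ e ∈ EH60.Rg N ε d, ((A e).card : ℝ) ≤ EH60.KK N η d e ∧ 0 ≤ x e) ∧
        ∑ e ∈ EH60.Rg N ε d, x e ≤ (N : ℝ) ^ (1 - η / 9) / d ∧
        ∀ e ∈ EH60.Rg N ε d, ∀ y : ℝ, 0 ≤ y → y ≤ N → ∀ a : ℕ, a.Coprime (d * e) →
          a % (d * e) ∉ A e →
          |EH60.cnt y (d * e) a - EH60.cnt y d a / (e.totient : ℝ)| ≤ x e) ∧
    (∀ ε η : ℝ, 0 < ε → 0 < η → η ≤ ε → ∃ C : ℝ, 0 < C ∧ ∀ᶠ N : ℕ in atTop, ∀ d : ℕ, 0 < d →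
      ∑ e ∈ EH60.Rg N ε d, EH60.wt e * EH60.Et N (d * e) (EH60.KK N η d e) ≤
        C * EH60.E N d + (N : ℝ) ^ (1 - η / 10) / d) ∧
    (∀ β ε η : ℝ, 0 < ε → 0 < η → η ≤ ε → EH60.Admissible β → ∃ C₁ K : ℝ, ∀ᶠ N : ℕ in atTop,
      ∑ d ∈ (Finset.Icc (1 : ℕ) N).filter
          (fun d : ℕ => (d : ℝ) < (N : ℝ) ^ β / Real.log N ^ C₁),
        ∑ e ∈ EH60.Rg N ε d, EH60.wt (d * e) * EH60.Et N (d * e) (EH60.KK N η d e) ≤
        K * N / Real.log N ^ 3) :=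
  ⟨EH60.trim, EH60.trim_E, EH60.trim_admissible⟩

end Pool.Agent.Results.MP_188a10_nt.TrimmedMaximum
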